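import Pool.Agent.X139.KT.Stm
import Pool.Agent.H988R2.Gauss

set_option autoImplicit false

namespace Pool.Agent.X28.KT

open MeasureTheory ProbabilityTheory Pool.Agent.X139.KT

theorem t_CM : S_CM := by
  intro n f a
  have hmap : ∀ g : EuclideanSpace ℝ (Finset (Fin n)) → ℝ,
      ∫ x, g x ∂(stdGaussian (EuclideanSpace ℝ (Finset (Fin n)))) = ∫ Z, g (WithLp.toLp 2 Z) ∂(G n) := by
    intro g
    rw [← map_pi_eq_stdGaussian]
    exact integral_map_equiv (MeasurableEquiv.toLp 2 (Finset (Fin n) → ℝ)) g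
  have h := Pool.Agent.H988R2.integral_stdGaussian_add (Finset (Fin n)) (fun x => f (WithLp.ofLp x)) (WithLp.toLp 2 a)
  rw [hmap, hmap, ← integral_const_mul] at h
  have e1 : ∀ Z : Finset (Fin n) → ℝ, f (fun S => a S + Z S) = f (WithLp.ofLp (WithLp.toLp 2 Z + WithLp.toLp 2 a)) := by
    intro Z
    congr 1
    funext S
    simp [add_comm]
  have e2 : ∀ Z : Finset (Fin n) → ℝ, f Z * Real.exp ((∑ S, a S * Z S) - (∑ S, a S ^ 2) / 2) =
      Real.exp (-‖WithLp.toLp 2 a‖ ^ 2 / 2) *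
        (Real.exp (inner ℝ (WithLp.toLp 2 Z) (WithLp.toLp 2 a)) * f (WithLp.ofLp (WithLp.toLp 2 Z))) := by
    intro Z
    have e3 : ‖WithLp.toLp 2 a‖ ^ 2 = ∑ S, a S ^ 2 := by
      rw [EuclideanSpace.real_norm_sq_eq]
    have e4 : inner ℝ (WithLp.toLp 2 Z) (WithLp.toLp 2 a) = ∑ S, a S * Z S := by
      rw [PiLp.inner_apply]
      apply Finset.sum_congr rfl
      intro S _
      simp
    rw [e3, e4]
    have e5 : (∑ S, a S * Z S) - (∑ S, a S ^ 2) / 2 = -(∑ S, a S ^ 2) / 2 + ∑ S, a S * Z S := by ring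
    rw [e5, Real.exp_add]
    simp only
    ring
  simp only [e1, e2]
  exact h

end Pool.Agent.X28.KT
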