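import Pool.Agent.X139.KT.Stm

set_option autoImplicit false

namespace Pool.Agent.X28.KT

open MeasureTheory ProbabilityTheory Pool.Agent.X139.KT

lemma sg_sq (b : Bool) : sg b ^ 2 = 1 := by
  unfold sg
  split_ifs <;> norm_num

lemma sum_bool (t : ℝ) (c : Bool) : ∑ b : Bool, Real.exp (t * (sg b * sg c)) ≤ 2 * Real.exp (t ^ 2 / 2) := by
  have h : ∑ b : Bool, Real.exp (t * (sg b * sg c)) = 2 * Real.cosh t := by
    rw [Real.cosh_eq, Fintype.sum_bool]
    cases c
    · simp [sg]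
      ring
    · simp [sg]
      ring
  rw [h]
  have := Real.cosh_le_exp_half_sq t
  linarith

lemma int_exp (μ : ℝ) (h0 : 0 < μ) (h1 : μ < 1) :
    Integrable (fun g : ℝ => Real.exp (μ ^ 2 * g ^ 2 / 2)) (gaussianReal 0 1) := by
  rw [gaussianReal_of_var_ne_zero 0 one_ne_zero]
  rw [integrable_withDensity_iff_integrable_smul' (measurable_gaussianPDF 0 1)
    (Filter.Eventually.of_forall fun x => gaussianPDF_lt_top)]
  have hb : 0 < (1 - μ ^ 2) / 2 := by nlinarith
  have h := (integrable_exp_neg_mul_sq hb).const_mul ((Real.sqrt (2 * Real.pi))⁻¹)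
  refine h.congr (Filter.Eventually.of_forall fun x => ?_)
  simp only [smul_eq_mul]
  rw [toReal_gaussianPDF, gaussianPDFReal]
  simp only [NNReal.coe_one, mul_one, sub_zero]
  rw [mul_assoc, ← Real.exp_add]
  congr 2
  ring

theorem t_SM : S_PAIR → S_SM := by
  intro hP μ h0 h1
  refine ⟨(∫ g, Real.exp (μ ^ 2 * g ^ 2 / 2) ∂(gaussianReal 0 1)) + 1, ?_, ?_⟩
  · have : 0 ≤ ∫ g, Real.exp (μ ^ 2 * g ^ 2 / 2) ∂(gaussianReal 0 1) := integral_nonneg fun g => (Real.exp_pos _).le
    linarith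
  intro n hn y
  have hn' : (0 : ℝ) < n := by exact_mod_cast hn
  have hs : 0 < Real.sqrt n := Real.sqrt_pos.2 hn'
  have hs2 : Real.sqrt n ^ 2 = n := Real.sq_sqrt hn'.le
  set Sz : (Fin n → Bool) → ℝ := fun x => ∑ i, sg (x i) * sg (y i) with hSz
  have step1 : ∀ x : Fin n → Bool, Real.exp (μ ^ 2 / n *
      ∑ S ∈ (Finset.univ : Finset (Finset (Fin n))).filter (fun S => S.card = 2), chi x S * chi y S) ≤
      ∫ g, Real.exp (μ * g / Real.sqrt n * Sz x) ∂(gaussianReal 0 1) := by
    intro x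
    have e1 := hP n (fun i => sg (x i) * sg (y i))
    have e2 : ∑ i, (sg (x i) * sg (y i)) ^ 2 = (n : ℝ) := by
      have : ∀ i : Fin n, (sg (x i) * sg (y i)) ^ 2 = 1 := by
        intro i
        rw [mul_pow, sg_sq, sg_sq, one_mul]
      simp [this]
    have e3 : ∀ S : Finset (Fin n), ∏ i ∈ S, (sg (x i) * sg (y i)) = chi x S * chi y S := by
      intro S
      unfold chi
      rw [Finset.prod_mul_distrib]
    simp only [e3] at e1
    rw [e2] at e1
    have e4 : μ ^ 2 / n * ∑ S ∈ (Finset.univ : Finset (Finset (Fin n))).filter (fun S => S.card = 2), chi x S * chi y S ≤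
        (μ / Real.sqrt n * Sz x) ^ 2 / 2 := by
      have e5 : (μ / Real.sqrt n * Sz x) ^ 2 / 2 = μ ^ 2 / n * (Sz x ^ 2 / 2) := by
        rw [mul_pow, div_pow, hs2]
        ring
      rw [e5]
      apply mul_le_mul_of_nonneg_left _ (by positivity)
      have : Sz x ^ 2 = (∑ i, sg (x i) * sg (y i)) ^ 2 := rfl
      rw [this, e1]
      linarith
    refine (Real.exp_le_exp.2 e4).trans (le_of_eq ?_)
    have e6 := mgf_gaussianReal (p := gaussianReal 0 1) (X := id) (μ := 0) (v := 1) (by simp) (μ / Real.sqrt n * Sz x)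
    rw [mgf] at e6
    simp only [id, NNReal.coe_one, zero_mul, one_mul, zero_add] at e6
    rw [← e6]
    congr 1
    funext g
    congr 1
    ring
  have hint : ∀ x : Fin n → Bool, Integrable (fun g : ℝ => Real.exp (μ * g / Real.sqrt n * Sz x)) (gaussianReal 0 1) := by
    intro x
    have := integrable_exp_mul_gaussianReal (μ := 0) (v := 1) (μ / Real.sqrt n * Sz x)
    refine this.congr (Filter.Eventually.of_forall fun g => ?_)
    simp only
    congr 1
    ring
  have step2 : ∀ g : ℝ, ∑ x : Fin n → Bool, Real.exp (μ * g / Real.sqrt n * Sz x) ≤ 2 ^ n * Real.exp (μ ^ 2 * g ^ 2 / 2) := by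
    intro g
    set t : ℝ := μ * g / Real.sqrt n with ht
    have e1 : ∀ x : Fin n → Bool, Real.exp (t * Sz x) = ∏ i, Real.exp (t * (sg (x i) * sg (y i))) := by
      intro x
      rw [hSz, Finset.mul_sum, Real.exp_sum]
    simp only [e1]
    have e2 : ∑ x : Fin n → Bool, ∏ i, Real.exp (t * (sg (x i) * sg (y i))) =
        ∏ i : Fin n, ∑ b : Bool, Real.exp (t * (sg b * sg (y i))) := by
      rw [Finset.prod_univ_sum, Fintype.piFinset_univ]
    rw [e2]
    refine (Finset.prod_le_prod (fun i _ => Finset.sum_nonneg fun b _ => (Real.exp_pos _).le)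
      (fun i _ => sum_bool t (y i))).trans (le_of_eq ?_)
    rw [Finset.prod_const, Finset.card_univ, Fintype.card_fin, mul_pow, ← Real.exp_nat_mul]
    congr 2
    rw [ht, div_pow, hs2]
    field_simp
  calc ∑ x : Fin n → Bool, Real.exp (μ ^ 2 / n *
      ∑ S ∈ (Finset.univ : Finset (Finset (Fin n))).filter (fun S => S.card = 2), chi x S * chi y S)
      ≤ ∑ x : Fin n → Bool, ∫ g, Real.exp (μ * g / Real.sqrt n * Sz x) ∂(gaussianReal 0 1) :=
        Finset.sum_le_sum fun x _ => step1 x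
    _ = ∫ g, ∑ x : Fin n → Bool, Real.exp (μ * g / Real.sqrt n * Sz x) ∂(gaussianReal 0 1) :=
        (integral_finset_sum _ fun x _ => hint x).symm
    _ ≤ ∫ g, 2 ^ n * Real.exp (μ ^ 2 * g ^ 2 / 2) ∂(gaussianReal 0 1) :=
        integral_mono (integrable_finset_sum _ fun x _ => hint x) ((int_exp μ h0 h1).const_mul _) step2
    _ = 2 ^ n * ∫ g, Real.exp (μ ^ 2 * g ^ 2 / 2) ∂(gaussianReal 0 1) := integral_const_mul _ _
    _ ≤ ((∫ g, Real.exp (μ ^ 2 * g ^ 2 / 2) ∂(gaussianReal 0 1)) + 1) * 2 ^ n := by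
        have : (0 : ℝ) < 2 ^ n := by positivity
        nlinarith

end Pool.Agent.X28.KT
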